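import Mathlib

set_option autoImplicit false

namespace Pool.Agent.Results.MP_81fb9f_gt.No

open Set Filter Topology TopologicalSpace

/-- convergent sequence together with its limit -/
def ConvSeq {X : Type} [TopologicalSpace X] (C : Set X) : Prop :=
  ∃ (x : ℕ → X) (a : X), Tendsto x atTop (𝓝 a) ∧ C = range x ∪ {a}

/-- the hyperspace `S(X)` of nonempty closed finite unions of convergent sequences -/
def SX (X : Type) [TopologicalSpace X] : Type :=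
  {S : Set X // S.Nonempty ∧ IsClosed S ∧
    ∃ 𝒞 : Set (Set X), 𝒞.Finite ∧ (∀ C ∈ 𝒞, ConvSeq C) ∧ S = ⋃₀ 𝒞}

/-- the set `⟨P_1, ..., P_r⟩` -/
def box {X : Type} [TopologicalSpace X] (𝒜 : Set (Set X)) : Set (SX X) :=
  {S | S.1 ⊆ ⋃₀ 𝒜 ∧ ∀ P ∈ 𝒜, (S.1 ∩ P).Nonempty}

/-- the Vietoris topology -/
instance vietoris (X : Type) [TopologicalSpace X] : TopologicalSpace (SX X) :=
  generateFrom {B | ∃ 𝒰 : Set (Set X), 𝒰.Finite ∧ (∀ U ∈ 𝒰, IsOpen U) ∧ B = box 𝒰}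

def IsNetwork {Y : Type} [TopologicalSpace Y] (𝒜 : Set (Set Y)) : Prop :=
  ∀ (y : Y) (U : Set Y), IsOpen U → y ∈ U → ∃ P ∈ 𝒜, y ∈ P ∧ P ⊆ U

def IsKNetwork {Y : Type} [TopologicalSpace Y] (𝒜 : Set (Set Y)) : Prop :=
  ∀ K U : Set Y, IsCompact K → IsOpen U → K ⊆ U →
    ∃ 𝒬 ⊆ 𝒜, 𝒬.Finite ∧ K ⊆ ⋃₀ 𝒬 ∧ ⋃₀ 𝒬 ⊆ U

/-- locally finite family of sets -/
def LocFin {Y : Type} [TopologicalSpace Y] (𝒜 : Set (Set Y)) : Prop :=
  ∀ y : Y, ∃ V ∈ 𝓝 y, {P ∈ 𝒜 | (P ∩ V).Nonempty}.Finite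

def SigmaSpace (Y : Type) [TopologicalSpace Y] : Prop :=
  RegularSpace Y ∧ ∃ 𝒩 : ℕ → Set (Set Y), (∀ n, LocFin (𝒩 n)) ∧ IsNetwork (⋃ n, 𝒩 n)

def AlephSpace (Y : Type) [TopologicalSpace Y] : Prop :=
  RegularSpace Y ∧ ∃ 𝒩 : ℕ → Set (Set Y), (∀ n, LocFin (𝒩 n)) ∧ IsKNetwork (⋃ n, 𝒩 n)

section
variable {X : Type} [TopologicalSpace X]

theorem open_box {𝒰 : Set (Set X)} (h : 𝒰.Finite) (h' : ∀ U ∈ 𝒰, IsOpen U) : IsOpen (box 𝒰) :=
  isOpen_generateFrom_of_mem ⟨𝒰, h, h', rfl⟩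

theorem open_up {U : Set X} (h : IsOpen U) : IsOpen {S : SX X | S.1 ⊆ U} := by
  convert open_box (finite_singleton U) (by simpa using h) using 1
  ext S
  simp only [box, sUnion_singleton, mem_singleton_iff, forall_eq, mem_ofPred_eq]
  exact ⟨fun h => ⟨h, by rw [inter_eq_left.2 h]; exact S.2.1⟩, fun h => h.1⟩

theorem open_low {U : Set X} (h : IsOpen U) : IsOpen {S : SX X | (S.1 ∩ U).Nonempty} := by
  convert open_box (toFinite {U, univ}) (by simpa using h) using 1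
  ext S
  simp [box, S.2.1]

theorem clopen_up {U : Set X} (h : IsClopen U) : IsClopen {S : SX X | S.1 ⊆ U} := by
  refine ⟨⟨?_⟩, open_up h.2⟩
  convert open_low h.compl.2 using 1
  ext S
  simp [not_subset, Set.Nonempty]

theorem clopen_low {U : Set X} (h : IsClopen U) : IsClopen {S : SX X | (S.1 ∩ U).Nonempty} := by
  refine ⟨⟨?_⟩, open_low h.2⟩
  convert open_up h.compl.2 using 1
  ext S
  simp [subset_compl_iff_disjoint_right, not_nonempty_iff_eq_empty, disjoint_iff_inter_eq_empty]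

theorem t0 : T0Space (SX X) := by
  have key : ∀ S T : SX X, Inseparable S T → S.1 ⊆ T.1 := fun S T h p hp => by
    by_contra hc
    obtain ⟨q, hq, hq'⟩ := (h.mem_open_iff (open_low T.2.2.1.isOpen_compl)).1 ⟨p, hp, hc⟩
    exact hq' hq
  exact ⟨fun S T h => Subtype.ext (Subset.antisymm (key S T h) (key T S h.symm))⟩

def e [T1Space X] (x : X) : SX X := ⟨{x}, singleton_nonempty x, isClosed_singleton, {{x}},
  finite_singleton _, by
    rintro _ rfl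
    exact ⟨fun _ => x, x, tendsto_const_nhds, by simp⟩, by simp⟩

theorem cont_e [T1Space X] : Continuous (e : X → SX X) := by
  refine continuous_generateFrom_iff.2 ?_
  rintro _ ⟨𝒰, h1, h2, rfl⟩
  convert (isOpen_sUnion h2).inter (h1.isOpen_sInter h2) using 1
  ext x
  simp [box, e]

end

/-- the sequential fan with continuum many spines -/
def X : Type := Option (ℝ × ℕ)

def oo : X := none

def pt (α : ℝ) (n : ℕ) : X := some (α, n)

@[simp] theorem pt_ne (α : ℝ) (n : ℕ) : pt α n ≠ oo := by simp [pt, oo]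

@[simp] theorem ne_pt (α : ℝ) (n : ℕ) : oo ≠ pt α n := by simp [pt, oo]

@[simp] theorem pt_inj {α β : ℝ} {n m : ℕ} : pt α n = pt β m ↔ α = β ∧ n = m :=
  Option.some_inj.trans Prod.mk_inj

theorem cases (x : X) : x = oo ∨ ∃ α n, x = pt α n := by
  rcases x with _ | ⟨α, n⟩
  exacts [Or.inl rfl, Or.inr ⟨α, n, rfl⟩]

instance : TopologicalSpace X where
  IsOpen O := oo ∈ O → ∀ α, ∀ᶠ n in atTop, pt α n ∈ O
  isOpen_univ _ _ := Eventually.of_forall fun _ => trivial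
  isOpen_inter _ _ hs ht h α := (hs h.1 α).and (ht h.2 α)
  isOpen_sUnion _ hs := fun ⟨t, ht, h⟩ α => (hs t ht h α).mono fun _ hn => ⟨t, ht, hn⟩

theorem open_iff {O : Set X} : IsOpen O ↔ (oo ∈ O → ∀ α, ∀ᶠ n in atTop, pt α n ∈ O) := Iff.rfl

theorem clopen_of_mem {O : Set X} (h : IsOpen O) (h' : oo ∈ O) : IsClopen O :=
  ⟨⟨fun hh => absurd h' hh⟩, h⟩

theorem clopen_of_notMem {O : Set X} (h : IsClosed O) (h' : oo ∉ O) : IsClopen O :=
  ⟨h, fun hh => absurd hh h'⟩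

theorem clopen_pt (α : ℝ) (n : ℕ) : IsClopen ({pt α n} : Set X) :=
  clopen_of_notMem ⟨fun _ β => (eventually_ne_atTop n).mono fun k hk => by simp [hk]⟩ (by simp)

instance : T2Space X := by
  refine t2_iff_nhds.2 fun {x y} h => ?_
  by_contra hc
  have key : ∀ α n (z : X), z ≠ pt α n → ¬ (𝓝 (pt α n) ⊓ 𝓝 z).NeBot := fun α n z hz hh => by
    obtain ⟨w, h1, h2⟩ := hh.nonempty_of_mem (inter_mem_inf ((clopen_pt α n).2.mem_nhds rfl)
      ((clopen_pt α n).compl.2.mem_nhds hz))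
    exact h2 h1
  rcases cases x with rfl | ⟨α, n, rfl⟩
  · rcases cases y with rfl | ⟨α, n, rfl⟩
    · exact hc rfl
    · exact key α n oo (by simp) (by rwa [inf_comm])
  · exact key α n y (Ne.symm hc) h

theorem tendsto_pt (α : ℝ) : Tendsto (pt α) atTop (𝓝 oo) :=
  tendsto_nhds.2 fun _ hs h => hs h α

/-- spines met by a set -/
def sp (S : Set X) : Set ℝ := {α | ∃ n, pt α n ∈ S}

theorem sp_conv {C : Set X} (h : ConvSeq C) : (sp C).Finite := by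
  obtain ⟨x, a, h1, rfl⟩ := h
  have h2 : ∀ α : sp (range x ∪ {a}), ∃ n, pt α.1 n ∈ range x ∪ {a} := fun α => α.2
  choose k hk using h2
  have hD : ∀ b : X, IsClosed (range (fun α => pt α.1 (k α)) \ {b}) := fun b =>
    ⟨fun _ β => by
      by_cases hβ : β ∈ sp (range x ∪ {a})
      · refine (eventually_ne_atTop (k ⟨β, hβ⟩)).mono ?_
        rintro n hn ⟨⟨γ, hγ⟩, -⟩
        obtain ⟨rfl, rfl⟩ := pt_inj.1 hγ
        exact hn rfl
      · refine Eventually.of_forall ?_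
        rintro n ⟨⟨γ, hγ⟩, -⟩
        exact hβ ((pt_inj.1 hγ).1 ▸ γ.2)⟩
  obtain ⟨N, hN⟩ := eventually_atTop.1 (h1.eventually ((hD a).isOpen_compl.mem_nhds
    fun h => h.2 rfl))
  have hf : (range fun α => pt α.1 (k α)).Finite := by
    refine (((finite_Iio N).image x).union (finite_singleton a)).subset ?_
    rintro _ ⟨α, rfl⟩
    by_cases ha : pt α.1 (k α) = a
    · exact Or.inr ha
    · rcases hk α with ⟨n, hn⟩ | hn
      · refine Or.inl ⟨n, ?_, hn⟩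
        by_contra hc
        exact hN n (not_lt.1 hc) (hn ▸ ⟨⟨α, rfl⟩, ha⟩)
      · exact absurd hn ha
  rw [finite_range_iff fun α β h => Subtype.ext (pt_inj.1 h).1] at hf
  exact toFinite _

theorem sp_fin (S : SX X) : (sp S.1).Finite := by
  obtain ⟨𝒞, h1, h2, h3⟩ := S.2.2.2
  refine (h1.biUnion fun C hC => sp_conv (h2 C hC)).subset ?_
  rintro α ⟨n, hn⟩
  rw [h3] at hn
  obtain ⟨C, hC, hn⟩ := hn
  exact mem_biUnion hC ⟨n, hn⟩

/-- the first `m` levels -/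
def L (m : ℕ) : Set X := {x | ∃ α n, n < m ∧ x = pt α n}

theorem tr_fin (S : SX X) (m : ℕ) : (S.1 ∩ L m).Finite := by
  refine (((sp_fin S).prod (finite_Iio m)).image fun p => pt p.1 p.2).subset ?_
  rintro _ ⟨h, α, n, hn, rfl⟩
  exact ⟨(α, n), ⟨⟨n, h⟩, hn⟩, rfl⟩

theorem open_tr (S : SX X) (m : ℕ) : IsOpen {T : SX X | T.1 ∩ L m = S.1 ∩ L m} := by
  have h1 : IsOpen ((L m)ᶜ ∪ S.1) := fun _ α => (eventually_ge_atTop m).mono fun n hn =>
    Or.inl fun ⟨β, k, hk, h⟩ => by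
      obtain ⟨-, rfl⟩ := pt_inj.1 h
      exact absurd hk (not_lt.2 hn)
  have h2 := (tr_fin S m).isOpen_biInter (f := fun p => {T : SX X | (T.1 ∩ {p}).Nonempty})
    (by rintro _ ⟨-, α, n, -, rfl⟩; exact open_low (clopen_pt α n).2)
  convert (open_up h1).inter h2 using 1
  ext T
  simp only [mem_ofPred_eq, mem_inter_iff, mem_iInter, inter_singleton_nonempty]
  constructor
  · intro h
    refine ⟨fun p hp => ?_, fun p hp => (h.symm.subset hp).1⟩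
    by_cases hL : p ∈ L m
    · exact Or.inr (h.subset ⟨hp, hL⟩).1
    · exact Or.inl hL
  · rintro ⟨a, b⟩
    exact Subset.antisymm (fun p hp => ⟨(a hp.1).resolve_left (fun h => h hp.2), hp.2⟩)
      fun p hp => ⟨b p hp, hp.2⟩

def N (m : ℕ) (s : Set X) (b : Prop) : Set (SX X) :=
  {T | T.1 ∩ L m = s ∧ (oo ∈ T.1 ↔ b) ∧ sp T.1 ⊆ sp s ∧ (¬ b → T.1 ⊆ L m)}

theorem ev_L {x : X} (hx : x ≠ oo) : ∀ᶠ m in atTop, x ∈ L m := by
  obtain ⟨α, n, rfl⟩ := (cases x).resolve_left hx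
  exact (eventually_gt_atTop n).mono fun m hm => ⟨α, n, hm, rfl⟩

theorem ev_tail (S : SX X) {U : Set X} (hU : IsOpen U) (h : oo ∈ U) :
    ∀ᶠ m in atTop, ∀ α ∈ sp S.1, ∀ n, m ≤ n → pt α n ∈ U :=
  (eventually_all_finite (sp_fin S)).2 fun α _ => eventually_forall_ge_atTop.2 (open_iff.1 hU h α)

theorem ev_mem (S : SX X) : ∀ᶠ m in atTop, S ∈ N m (S.1 ∩ L m) (oo ∈ S.1) := by
  have h1 : ∀ᶠ m in atTop, ∀ α ∈ sp S.1, α ∈ sp (S.1 ∩ L m) :=
    (eventually_all_finite (sp_fin S)).2 fun α ⟨n, hn⟩ =>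
      (ev_L (pt_ne α n)).mono fun m hm => ⟨n, hn, hm⟩
  by_cases h : oo ∈ S.1
  · exact h1.mono fun m hm => ⟨rfl, Iff.rfl, hm, fun hh => absurd h hh⟩
  · refine (h1.and (ev_tail S S.2.2.1.isOpen_compl h)).mono fun m hm =>
      ⟨rfl, Iff.rfl, hm.1, fun _ p hp => ?_⟩
    obtain ⟨α, n, rfl⟩ := (cases p).resolve_left (fun hh => h (hh ▸ hp))
    exact ⟨α, n, not_le.1 fun hh => hm.2 α ⟨n, hp⟩ n hh hp, rfl⟩

theorem ev_sub {W : Set (SX X)} (hW : IsOpen W) :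
    ∀ S ∈ W, ∀ᶠ m in atTop, N m (S.1 ∩ L m) (oo ∈ S.1) ⊆ W := by
  induction hW with
  | basic B hB =>
    obtain ⟨𝒰, h1, h2, rfl⟩ := hB
    intro S hS
    have a1 : ∀ᶠ m in atTop, ∀ T ∈ N m (S.1 ∩ L m) (oo ∈ S.1), T.1 ⊆ ⋃₀ 𝒰 := by
      by_cases h : oo ∈ S.1
      · refine (ev_tail S (isOpen_sUnion h2) (hS.1 h)).mono fun m hm T hT p hp => ?_
        rcases cases p with rfl | ⟨α, n, rfl⟩
        · exact hS.1 h
        · rcases lt_or_ge n m with hn | hn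
          · exact hS.1 (hT.1.subset ⟨hp, α, n, hn, rfl⟩).1
          · obtain ⟨k, hk⟩ := hT.2.2.1 ⟨n, hp⟩
            exact hm α ⟨k, hk.1⟩ n hn
      · exact Eventually.of_forall fun m T hT p hp => hS.1 (hT.1.subset ⟨hp, hT.2.2.2 h hp⟩).1
    have a2 : ∀ᶠ m in atTop, ∀ P ∈ 𝒰, ∀ T ∈ N m (S.1 ∩ L m) (oo ∈ S.1), (T.1 ∩ P).Nonempty := by
      refine (eventually_all_finite h1).2 fun P hP => ?_
      obtain ⟨p, hp, hp'⟩ := hS.2 P hP
      by_cases h : p = oo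
      · subst h
        exact Eventually.of_forall fun m T hT => ⟨oo, hT.2.1.2 hp, hp'⟩
      · exact (ev_L h).mono fun m hm T hT => ⟨p, (hT.1.symm.subset ⟨hp, hm⟩).1, hp'⟩
    exact (a1.and a2).mono fun m hm T hT => ⟨hm.1 T hT, fun P hP => hm.2 P hP T hT⟩
  | univ => exact fun _ _ => Eventually.of_forall fun _ => subset_univ _
  | inter s t _ _ h1 h2 =>
    exact fun S hS => ((h1 S hS.1).and (h2 S hS.2)).mono fun m hm => subset_inter hm.1 hm.2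
  | sUnion 𝒮 _ h =>
    exact fun S ⟨t, ht, hS⟩ => (h t ht S hS).mono fun m hm => hm.trans (subset_sUnion_of_mem ht)

theorem zd {W : Set (SX X)} (hW : IsOpen W) : ∀ S ∈ W, ∃ C, IsClopen C ∧ S ∈ C ∧ C ⊆ W := by
  induction hW with
  | basic B hB =>
    obtain ⟨𝒰, h1, h2, rfl⟩ := hB
    intro S hS
    obtain ⟨V, a1, a2, a3⟩ : ∃ V, IsClopen V ∧ S.1 ⊆ V ∧ V ⊆ ⋃₀ 𝒰 := by
      by_cases h : oo ∈ S.1
      · exact ⟨_, clopen_of_mem (isOpen_sUnion h2) (hS.1 h), hS.1, Subset.rfl⟩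
      · exact ⟨_, clopen_of_notMem S.2.2.1 h, Subset.rfl, hS.1⟩
    have : ∀ P ∈ 𝒰, ∃ Q, IsClopen Q ∧ (S.1 ∩ Q).Nonempty ∧ Q ⊆ P := fun P hP => by
      obtain ⟨p, hp, hp'⟩ := hS.2 P hP
      rcases cases p with rfl | ⟨α, n, rfl⟩
      · exact ⟨P, clopen_of_mem (h2 P hP) hp', ⟨_, hp, hp'⟩, Subset.rfl⟩
      · exact ⟨_, clopen_pt α n, ⟨_, hp, rfl⟩, singleton_subset_iff.2 hp'⟩
    choose! Q b1 b2 b3 using this
    refine ⟨_, (clopen_up a1).inter (h1.isClopen_biInter fun P hP => clopen_low (b1 P hP)),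
      ⟨a2, mem_iInter₂.2 b2⟩, fun T hT => ⟨hT.1.trans a3, fun P hP => ?_⟩⟩
    exact (mem_iInter₂.1 hT.2 P hP).mono (inter_subset_inter_right _ (b3 P hP))
  | univ => exact fun _ _ => ⟨univ, isClopen_univ, trivial, Subset.rfl⟩
  | inter s t _ _ h1 h2 =>
    intro S hS
    obtain ⟨C, a, b, c⟩ := h1 S hS.1
    obtain ⟨D, a', b', c'⟩ := h2 S hS.2
    exact ⟨_, a.inter a', ⟨b, b'⟩, inter_subset_inter c c'⟩
  | sUnion 𝒮 _ h =>
    intro S ⟨t, ht, hS⟩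
    obtain ⟨C, a, b, c⟩ := h t ht S hS
    exact ⟨C, a, b, c.trans (subset_sUnion_of_mem ht)⟩

theorem reg : RegularSpace (SX X) :=
  have := CompletelyRegularSpace.of_isTopologicalBasis_clopens
    (isTopologicalBasis_of_isOpen_of_nhds (s := {C : Set (SX X) | IsClopen C})
      (fun _ h => h.isOpen) fun S _ hS hW => zd hW S hS)
  inferInstance

theorem sigma : SigmaSpace (SX X) := by
  refine ⟨reg, fun m => {P | ∃ s b, P = N m s b}, fun m S => ⟨_, (open_tr S m).mem_nhds rfl,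
    (finite_range (N m (S.1 ∩ L m))).subset ?_⟩, fun S W hW hS => ?_⟩
  · rintro _ ⟨⟨s, b, rfl⟩, T, h1, h2⟩
    exact ⟨b, by rw [← h1.1, h2]⟩
  · obtain ⟨m, h1, h2⟩ := ((ev_mem S).and (ev_sub hW S hS)).exists
    exact ⟨_, mem_iUnion.2 ⟨m, _, _, rfl⟩, h1, h2⟩

theorem not_aleph : ¬ AlephSpace (SX X) := by
  classical
  rintro ⟨-, 𝒩, h1, h2⟩
  choose V hV hf using fun i => h1 i (e oo)
  obtain ⟨f, hf'⟩ := countable_iff_exists_subset_range.1
    (countable_iUnion fun i => (hf i).countable)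
  obtain ⟨α, hα⟩ : ∃ α, α ∉ ⋃ j ∈ {j | (sp (e ⁻¹' f j)).Finite}, sp (e ⁻¹' f j) := by
    by_contra hc
    push Not at hc
    exact not_countable_univ (((to_countable {j | (sp (e ⁻¹' f j)).Finite}).biUnion
      (t := fun j _ => sp (e ⁻¹' f j)) fun j hj => Set.Finite.countable hj).mono fun a _ => hc a)
  have h3 : ∀ (j : ℕ) (s : Finset ℝ), ∃ β k, β ∉ s ∧
      ((sp (e ⁻¹' f j)).Infinite → e (pt β k) ∈ f j) := fun j s => by
    by_cases h : (sp (e ⁻¹' f j)).Infinite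
    · obtain ⟨β, ⟨k, hk⟩, hβ⟩ := h.exists_notMem_finset s
      exact ⟨β, k, hβ, fun _ => hk⟩
    · obtain ⟨β, hβ⟩ := Infinite.exists_notMem_finset s
      exact ⟨β, 0, hβ, fun hh => absurd hh h⟩
  choose c k h4 h5 using h3
  let F : ℕ → Finset ℝ := fun j => Nat.rec {α} (fun j s => insert (c j s) s) j
  have hF : Monotone F := monotone_nat_of_le_succ fun j => Finset.subset_insert _ _
  have hlt : ∀ i j, i < j → c i (F i) ≠ c j (F j) := fun i j h hh =>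
    h4 j (F j) (hh ▸ hF h (Finset.mem_insert_self _ _))
  have hinj : Function.Injective fun j => c j (F j) := fun i j h => by
    rcases lt_trichotomy i j with a | a | a
    exacts [absurd h (hlt i j a), a, absurd h.symm (hlt j i a)]
  let D : Set X := range fun j => pt (c j (F j)) (k j (F j))
  have hD : IsOpen Dᶜ := fun _ β => by
    by_cases hβ : ∃ j, c j (F j) = β
    · obtain ⟨j, rfl⟩ := hβ
      refine (eventually_ne_atTop (k j (F j))).mono ?_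
      rintro n hn ⟨i, hi⟩
      obtain ⟨a, rfl⟩ := pt_inj.1 hi
      exact hn (by rw [hinj a])
    · exact Eventually.of_forall fun n ⟨i, hi⟩ => hβ ⟨i, (pt_inj.1 hi).1⟩
  have ht := (cont_e.tendsto oo).comp (tendsto_pt α)
  obtain ⟨𝒬, a1, a2, a3, a4⟩ := h2 _ _ ht.isCompact_insert_range (open_up hD) (by
    rintro _ (rfl | ⟨n, rfl⟩) _ rfl ⟨j, hj⟩
    · exact pt_ne _ _ hj
    · exact h4 j (F j) ((pt_inj.1 hj).1 ▸ hF (Nat.zero_le j) (Finset.mem_singleton_self α)))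
  obtain ⟨P, hP, b⟩ : ∃ P ∈ 𝒬, ∃ᶠ n in atTop, e (pt α n) ∈ P := by
    by_contra hc
    push Not at hc
    obtain ⟨n, hn⟩ := ((eventually_all_finite a2).2 hc).exists
    obtain ⟨P, hP, h⟩ := a3 (Or.inr ⟨n, rfl⟩)
    exact hn P hP h
  obtain ⟨i, hi⟩ := mem_iUnion.1 (a1 hP)
  obtain ⟨n, b1, b2⟩ := (b.and_eventually (ht.eventually (hV i))).exists
  obtain ⟨j, rfl⟩ := hf' (mem_iUnion.2 ⟨i, hi, _, b1, b2⟩)
  exact a4 ⟨_, hP, h5 j (F j) fun hh => hα (mem_biUnion hh ⟨n, b1⟩)⟩ rfl ⟨j, rfl⟩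

theorem result : ∃ (X : Type) (_ : TopologicalSpace X), T2Space X ∧ T2Space (SX X) ∧
    SigmaSpace (SX X) ∧ ¬ AlephSpace (SX X) :=
  ⟨X, inferInstance, inferInstance, by
    have := reg
    have := t0 (X := X)
    have : T3Space (SX X) := ⟨⟩
    infer_instance, sigma, not_aleph⟩

end Pool.Agent.Results.MP_81fb9f_gt.No
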